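import Pool.Agent.W761.CC.Stms

/-!
# CC-TR: translation invariance
-/

set_option autoImplicit false

open MeasureTheory
open scoped ENNReal

namespace Pool.Agent.W460.CC

open Pool.Agent.W761.CB
open Pool.Agent.W761.CC (tra S_TR)

section general

variable {X : Type} [MeasurableSpace X]

theorem meas_mk (N : ℕ) : Measurable (@Sigma.mk ℕ (fun N => Fin N → X) N) :=
  measurable_iff_le_map.2 (iInf_le (fun a : ℕ =>
    (inferInstance : MeasurableSpace (Fin a → X)).map (@Sigma.mk ℕ (fun N => Fin N → X) a)) N)

theorem meas_of {β : Type*} [MeasurableSpace β] {f : Cf X → β}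
    (h : ∀ N, Measurable fun x : Fin N → X => f ⟨N, x⟩) : Measurable f := by
  intro s hs
  refine MeasurableSpace.measurableSet_iInf.2 fun N => ?_
  exact h N hs

variable [AddCommGroup X]

/-- translation of configurations -/
def Tr (a : X) (γ : Cf X) : Cf X := ⟨γ.1, fun i => γ.2 i - a⟩

omit [MeasurableSpace X] in
theorem Tr_neg (a : X) (γ : Cf X) : Tr (-a) (Tr a γ) = γ := by
  obtain ⟨N, x⟩ := γ
  unfold Tr
  simp

omit [MeasurableSpace X] in
theorem ms_Tr (a : X) (γ : Cf X) : ms (Tr a γ) = (ms γ).map fun x => x - a := by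
  unfold ms Tr
  rw [Multiset.map_coe, List.map_ofFn]
  rfl

theorem Tr_meas [MeasurableSub X] (a : X) : Measurable (Tr a) := by
  refine meas_of fun N => ?_
  have h : Measurable fun x : Fin N → X => (fun i => x i - a : Fin N → X) :=
    measurable_pi_iff.2 fun i => (measurable_sub_const a).comp (measurable_pi_apply i)
  exact (meas_mk N).comp h

/-- translation of configurations as an equivalence -/
def TrE [MeasurableSub X] (a : X) : Cf X ≃ᵐ Cf X where
  toFun := Tr a
  invFun := Tr (-a)
  left_inv := Tr_neg a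
  right_inv := fun γ => by
    have h := Tr_neg (-a) γ
    rwa [neg_neg] at h
  measurable_toFun := Tr_meas a
  measurable_invFun := Tr_meas (-a)

theorem Tr_mp [MeasurableSub X] (ν : Measure X) [SigmaFinite ν] (a : X)
    (hν : MeasurePreserving (fun x => x - a) ν ν) : MeasurePreserving (Tr a) (lam ν) (lam ν) := by
  refine ⟨Tr_meas a, ?_⟩
  ext s hs
  rw [Measure.map_apply (Tr_meas a) hs]
  unfold lam
  rw [Measure.sum_apply _ (Tr_meas a hs), Measure.sum_apply _ hs]
  refine tsum_congr fun N => ?_
  rw [Measure.smul_apply, Measure.smul_apply, Measure.map_apply (meas_mk N) (Tr_meas a hs),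
    Measure.map_apply (meas_mk N) hs]
  congr 1
  have h1 : MeasurePreserving (fun (x : Fin N → X) (i : Fin N) => x i - a)
      (Measure.pi fun _ : Fin N => ν) (Measure.pi fun _ : Fin N => ν) :=
    measurePreserving_pi (fun _ => ν) (fun _ => ν) (fun _ => hν)
  exact h1.measure_preimage (meas_mk N hs).nullMeasurableSet

theorem lint_Tr [MeasurableSub X] (ν : Measure X) [SigmaFinite ν] (a : X)
    (hν : MeasurePreserving (fun x => x - a) ν ν) (g : Cf X → ℝ≥0∞) :
    ∫⁻ γ, g (Tr a γ) ∂(lam ν) = ∫⁻ γ, g γ ∂(lam ν) :=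
  (Tr_mp ν a hν).lintegral_comp_emb (TrE a).measurableEmbedding g

theorem nE_tra [MeasurableSub X] (ν : Measure X) [SigmaFinite ν] (a : X)
    (hν : MeasurePreserving (fun x => x - a) ν ν) (F : Multiset X → ℂ) :
    nE ν (tra a F) = nE ν F := by
  unfold nE
  rw [← lint_Tr ν a hν (fun γ => ‖F (ms γ)‖ₑ ^ 2)]
  refine lintegral_congr fun γ => ?_
  rw [ms_Tr]
  rfl

omit [MeasurableSpace X] in
theorem an_tra (a x : X) (F : Multiset X → ℂ) : an x (tra a F) = tra a (an (x - a) F) := by
  funext S
  unfold an tra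
  rw [Multiset.map_cons]

theorem dE_tra [MeasurableSub X] (ν : Measure X) [SigmaFinite ν] (a : X)
    (hν : MeasurePreserving (fun x => x - a) ν ν) (F : Multiset X → ℂ) (x y : X) :
    dE ν (tra a F) x y = dE ν F (x - a) (y - a) := by
  unfold dE
  rw [← nE_tra ν a hν (fun S => F ((x - a) ::ₘ S) - F ((y - a) ::ₘ S))]
  congr 1
  funext S
  unfold tra
  rw [Multiset.map_cons, Multiset.map_cons]

theorem EB_tra [MeasurableSub X] (a : X) (F : Multiset X → ℂ) (hF : EB F) : EB (tra a F) := by
  refine ⟨?_, ?_⟩
  · have h := hF.meas.comp (Tr_meas a)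
    have e : (fun γ : Cf X => tra a F (ms γ)) = (fun γ : Cf X => F (ms γ)) ∘ (Tr a) := by
      funext γ
      show F _ = F (ms (Tr a γ))
      rw [ms_Tr]
    rw [e]
    exact h
  · obtain ⟨C, c, hC, hc, h⟩ := hF.bdd
    refine ⟨C, c, hC, hc, fun S => ?_⟩
    have h1 := h (S.map fun x => x - a)
    rw [Multiset.card_map] at h1
    exact h1

end general

theorem tdist_sub {n : ℕ} {L : ℝ} (a x y : Tor n L) : tdist (x - a) (y - a) = tdist x y := by
  unfold tdist
  congr 1
  refine Finset.sum_congr rfl fun c _ => ?_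
  rw [Pi.sub_apply, Pi.sub_apply, sub_sub_sub_cancel_right]

/-- CC-TR -/
theorem proof_tr : S_TR := by
  intro n L _ μ K v a F _ _ hF
  have hν : MeasurePreserving (fun x : Tor n L => x - a) volume volume :=
    measurePreserving_sub_right volume a
  have hinv : ∀ g : Tor n L → ℝ≥0∞, ∫⁻ x, g (x - a) = ∫⁻ x, g x :=
    fun g => lintegral_sub_right_eq_self g a
  have hken : ken μ K (tra a F) = ken μ K F := by
    have h1 : Kp (tra a F) = Kp F := by
      unfold Kp
      refine Finset.sum_congr rfl fun c _ => ?_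
      congr 1
      funext k
      congr 1
      rw [← hinv (fun x => dE volume F (x + ec L c ((2 : ℝ)⁻¹ ^ k)) x)]
      refine lintegral_congr fun x => ?_
      rw [dE_tra volume a hν]
      congr 1
      abel
    have h2 : Hp K (tra a F) = Hp K F := by
      unfold Hp
      congr 1
      refine lintegral_congr fun z => ?_
      congr 1
      rw [← hinv (fun x => dE volume F (x + pr L z) x)]
      refine lintegral_congr fun x => ?_
      rw [dE_tra volume a hν]
      congr 1
      abel
    unfold ken
    rw [h1, h2]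
  have hV : Vp v (tra a F) = Vp v F := by
    unfold Vp
    congr 1
    rw [← hinv (fun x => ∫⁻ y, v (tdist x y) * nE volume (an y (an x F)))]
    refine lintegral_congr fun x => ?_
    rw [← hinv (fun y => v (tdist (x - a) y) * nE volume (an y (an (x - a) F)))]
    refine lintegral_congr fun y => ?_
    rw [tdist_sub, an_tra, an_tra, nE_tra volume a hν]
  refine ⟨EB_tra a F hF, nE_tra volume a hν F, ?_, hken, ?_⟩
  · unfold nuE
    rw [← hinv (fun x => nE volume (an x F))]
    refine lintegral_congr fun x => ?_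
    rw [an_tra, nE_tra volume a hν]
  · unfold en
    rw [hken, hV]

end Pool.Agent.W460.CC
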